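import Pool.Agent.P8H56.DH.Five

/-!
# Assembling
-/

open Module

namespace Pool.Agent.P8H56.DH

open Pool.Agent.W539.DI Pool.Agent.R929.DH

variable {n : ℕ} {X Y : KRing n} {Φ : FM X Y} {L : X.R} {L' : Y.R}

theorem top_forms (Φ : FM X Y) : X.h n 0 = Y.h n 0 := by
  obtain ⟨-, h⟩ := Φ.hodge_sums n 0 (by omega)
  have z : ∀ Z : KRing n, ∑ i ∈ Finset.range n, Z.h ((n : ℤ) - 2 - 2 * i) (((0 : ℕ) : ℤ) - 2 - 2 * i) = 0 :=
    fun Z => Finset.sum_eq_zero fun i _ => Z.h_neg (Or.inr (by push_cast; omega))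
  rw [z, z] at h
  simpa using h

theorem next_forms (Φ : FM X Y) (hn : 1 ≤ n) : X.h (n - 1) 0 = Y.h (n - 1) 0 := by
  have t := Φ.total_all (n - 1) 0 {0, 1} (by
    intro k hk
    simp only [Finset.mem_insert, Finset.mem_singleton] at hk
    omega)
  rw [Finset.sum_insert (by decide), Finset.sum_singleton, Finset.sum_insert (by decide),
    Finset.sum_singleton] at t
  have s : ∀ Z : KRing n, Z.h ((n : ℤ) - 1 + 1) (0 + 1) = Z.h (n - 1) 0 := fun Z => by
    rw [serre Z, Z.h_swap]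
    congr 1 <;> ring
  rw [s, s, add_zero, add_zero] at t
  omega

theorem forms_all (hX : Semipositive X L) (hY : Semipositive Y L') (hc : Intertwines Φ X.c Y.c)
    (hΦ : Intertwines Φ L L') {m : ℕ} (hm : m + 2 = n) (h : L ^ m ≠ 0) (p : ℕ) :
    X.h p 0 = Y.h p 0 := by
  by_cases h1 : p + 2 ≤ n
  · exact forms_eq hX hY hc hΦ hm h (p := p) (k := n - 2 - p) (by omega)
  · by_cases h2 : p = n
    · rw [h2]
      exact top_forms Φ
    · by_cases h3 : p + 1 = n
      · have h4 := next_forms Φ (by omega : 1 ≤ n)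
        have e : ((n : ℤ) - 1) = p := by omega
        rwa [e] at h4
      · rw [X.h_zero (by omega), Y.h_zero (by omega)]

theorem five_20 {X Y : KRing 5} {Φ : FM X Y} {L : X.R} {L' : Y.R} (hX : Semipositive X L)
    (hY : Semipositive Y L') (hc : Intertwines Φ X.c Y.c) (hΦ : Intertwines Φ L L')
    (h : L ^ 3 ≠ 0 ∨ finrank ℂ (killed X L 1 2) = finrank ℂ (killed Y L' 1 2)) :
    X.h 2 0 = Y.h 2 0 := by
  rcases h with h | h
  · exact forms_all hX hY hc hΦ (m := 3) rfl h 2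
  · have := rank_eq hX hY hc hΦ (p := 2) (by norm_num) (k := 1) (by norm_num)
    omega

theorem six_20 {X Y : KRing 6} {Φ : FM X Y} {L : X.R} {L' : Y.R} (hX : Semipositive X L)
    (hY : Semipositive Y L') (hc : Intertwines Φ X.c Y.c) (hΦ : Intertwines Φ L L')
    (h : L ^ 4 ≠ 0 ∨ finrank ℂ (killed X L 2 2) = finrank ℂ (killed Y L' 2 2) ∧
      finrank ℂ (killed X L 1 3) = finrank ℂ (killed Y L' 1 3)) :
    X.h 2 0 = Y.h 2 0 ∧ X.h 3 0 = Y.h 3 0 := by
  rcases h with h | ⟨h, h'⟩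
  · exact ⟨forms_all hX hY hc hΦ (m := 4) rfl h 2, forms_all hX hY hc hΦ (m := 4) rfl h 3⟩
  · have h1 := rank_eq hX hY hc hΦ (p := 2) (by norm_num) (k := 2) (by norm_num)
    have h2 := rank_eq hX hY hc hΦ (p := 3) (by norm_num) (k := 1) (by norm_num)
    omega

end Pool.Agent.P8H56.DH
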