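import Pool.Agent.R929.DH.Main

/-!
# Semipositive classes of arbitrary defect: definitions
-/

open scoped ComplexConjugate
open Module

namespace Pool.Agent.P8H56.DH

open Pool.Agent.W539.DI Pool.Agent.R929.DH

variable {n : ℕ}

/-- The real class `L` of type `(1, 1)` is semipositive: it has the following cohomological
properties of a class which is represented by a semipositive smooth form (for example the pull-back
of an ample class under any morphism, or a positive real multiple of a semiample class):

* `nef`: `L + t ω` is a Kähler class for all `t > 0`, where `ω` is the given Kähler class;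
* `pos`: for holomorphic `p`-forms `x` with `L ^ i x ≠ 0` the integral of `L ^ i ω ^ (n - p - i)`
  against `x ∧ bar x`, normalised as in the Hodge-Riemann relations, is positive (the integrand is
  pointwise nonnegative, and it is zero only where the form `L ^ i x` is zero);
* `rank`: if a holomorphic `p`-form `x ≠ 0` is killed by `L ^ i` then `L ^ (p + i) = 0` (the form
  `L ^ i x` is zero at all points, so the rank of `L` is less than `p + i` at all points where `x`
  is not zero).

Nothing is assumed on the dimensions of the fibres. -/
structure Semipositive (X : KRing n) (L : X.R) : Prop where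
  mem : L ∈ X.H (1, 1)
  real : X.bar L = L
  nef : ∀ t : ℝ, 0 < t → IsKahler X (L + (t : ℂ) • X.ω)
  pos : ∀ (p : ℤ) (i j : ℕ), p + i + j = n → ∀ x ∈ X.H (p, 0), L ^ i * x ≠ 0 →
    ∃ r : ℝ, 0 < r ∧ Complex.I ^ p * (-1 : ℂ) ^ (p * (p - 1) / 2) *
      X.tr (L ^ i * (X.ω ^ j * (x * X.bar x))) = (r : ℂ)
  rank : ∀ p i : ℕ, ∀ x ∈ X.H (p, 0), x ≠ 0 → L ^ i * x = 0 → L ^ (p + i) = 0

/-- The holomorphic `p`-forms which are killed by `L ^ k`. -/
noncomputable def killed (X : KRing n) (L : X.R) (k : ℕ) (p : ℤ) : Submodule ℂ X.R :=
  X.H (p, 0) ⊓ LinearMap.ker (ml X (L ^ k))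

end Pool.Agent.P8H56.DH
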