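import Pool.Agent.P8H56.DH.Main

/-!
# Dimensions five and six
-/

open Module

namespace Pool.Agent.P8H56.DH

open Pool.Agent.W539.DI Pool.Agent.R929.DH

/-- The formula of Libgober and Wood for the second derivative of the `χ_y`-genus at `y = -1`,
`∑ (-1) ^ (p + q) (p - n / 2) ^ 2 h^{p,q} = (n / 12) c_n + (1 / 6) e`, multiplied by `12`, where
`e` is the Chern number `c_1 c_{n-1}` and `c_n` is the Euler number `∑ (-1) ^ (p + q) h^{p,q}`. -/
def LibgoberWood {n : ℕ} (X : KRing n) (e : ℤ) : Prop :=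
  3 * ∑ p ∈ Finset.range (n + 1), ∑ q ∈ Finset.range (n + 1),
      (-1 : ℤ) ^ (p + q) * (2 * (p : ℤ) - n) ^ 2 * X.h p q =
    n * ∑ p ∈ Finset.range (n + 1), ∑ q ∈ Finset.range (n + 1), (-1 : ℤ) ^ (p + q) * X.h p q + 2 * e

variable {n : ℕ}

theorem serre (Z : KRing n) (p q : ℤ) : Z.h p q = Z.h (n - p) (n - q) := by
  by_cases h : p + q ≤ n
  · obtain ⟨k, hk⟩ := Int.eq_ofNat_of_zero_le (show 0 ≤ (n : ℤ) - p - q by omega)
    rw [Z.h_symm (p := p) (q := q) k (by omega), Z.h_swap]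
    congr 1 <;> omega
  · obtain ⟨k, hk⟩ := Int.eq_ofNat_of_zero_le (show 0 ≤ p + q - (n : ℤ) by omega)
    rw [Z.h_symm (p := n - p) (q := n - q) k (by omega), Z.h_swap]
    congr 1 <;> omega

/-- It is enough to compare the Hodge numbers with `0 ≤ q ≤ p` and `p + q ≤ n`. -/
theorem reduce {X Y : KRing n} (P : ℤ → ℤ → Prop) (hsw : ∀ p q, P p q → P q p)
    (hse : ∀ p q, P p q → P (n - p) (n - q))
    (h : ∀ p q : ℤ, 0 ≤ q → q ≤ p → p + q ≤ n → P p q → X.h p q = Y.h p q) (p q : ℤ)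
    (hpq : P p q) : X.h p q = Y.h p q := by
  have h1 : ∀ p q : ℤ, q ≤ p → p + q ≤ n → P p q → X.h p q = Y.h p q := by
    intro p q hqp hn hP
    by_cases hq : 0 ≤ q
    · exact h p q hq hqp hn hP
    · rw [X.h_neg (Or.inr (by omega)), Y.h_neg (Or.inr (by omega))]
  have h2 : ∀ p q : ℤ, p + q ≤ n → P p q → X.h p q = Y.h p q := by
    intro p q hn hP
    by_cases hqp : q ≤ p
    · exact h1 p q hqp hn hP
    · rw [X.h_swap, Y.h_swap]
      exact h1 q p (by omega) (by omega) (hsw _ _ hP)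
  by_cases hn : p + q ≤ n
  · exact h2 p q hn hpq
  · rw [serre X, serre Y]
    exact h2 _ _ (by omega) (hse _ _ hpq)

section five

variable {X Y : KRing 5}

/-- The Hodge numbers outside of the middle column in dimension five. -/
theorem five_off (Φ : FM X Y) (h10 : X.h 1 0 = Y.h 1 0) (h20 : X.h 2 0 = Y.h 2 0) (p q : ℤ)
    (hpq : p ≠ q) : X.h p q = Y.h p q := by
  obtain ⟨a1, a2⟩ := Φ.hodge_sums 3 2 rfl
  obtain ⟨b1, b2⟩ := Φ.hodge_sums 4 1 rfl
  obtain ⟨-, c2⟩ := Φ.hodge_sums 5 0 rfl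
  rw [X.sum_first _ _ (by norm_num) (by norm_num), Y.sum_first _ _ (by norm_num) (by norm_num)]
    at a1 a2 b1 b2 c2
  norm_num at a1 a2 b1 b2 c2
  have z1 : ∀ Z : KRing 5, Z.h 2 (-1) = 0 := fun Z => Z.h_neg (by norm_num)
  have z2 : ∀ Z : KRing 5, Z.h 3 (-2) = 0 := fun Z => Z.h_neg (by norm_num)
  rw [z1, z1] at b2
  rw [z2, z2] at c2
  have t4 := Φ.total_all 4 0 {0, 1} (by
    intro k hk
    simp only [Finset.mem_insert, Finset.mem_singleton] at hk
    push_cast
    omega)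
  have t2 := Φ.total_all 2 0 {0, 1, 2, 3} (by
    intro k hk
    simp only [Finset.mem_insert, Finset.mem_singleton] at hk
    push_cast
    omega)
  rw [Finset.sum_insert (by decide), Finset.sum_singleton, Finset.sum_insert (by decide),
    Finset.sum_singleton] at t4
  rw [Finset.sum_insert (by decide), Finset.sum_insert (by decide), Finset.sum_insert (by decide),
    Finset.sum_singleton, Finset.sum_insert (by decide), Finset.sum_insert (by decide),
    Finset.sum_insert (by decide), Finset.sum_singleton] at t2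
  norm_num at t4 t2
  have s51 : ∀ Z : KRing 5, Z.h 5 1 = Z.h 4 0 := fun Z => by
    rw [serre Z, Z.h_swap]; norm_num
  have s42 : ∀ Z : KRing 5, Z.h 4 2 = Z.h 3 1 := fun Z => by
    rw [serre Z, Z.h_swap]; norm_num
  have s53 : ∀ Z : KRing 5, Z.h 5 3 = Z.h 2 0 := fun Z => by
    rw [serre Z, Z.h_swap]; norm_num
  rw [s51, s51] at t4
  rw [s42, s42, s53, s53] at t2
  refine reduce (fun p q => p ≠ q) (fun p q h => h.symm) (fun p q h h' => h (by omega)) ?_ p q hpq
  intro p q hq hqp hn hne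
  push_cast at hn
  have hp5 : p ≤ 5 := by omega
  have hq2 : q ≤ 2 := by omega
  have t31 : X.h 3 1 = Y.h 3 1 := by omega
  have t40 : X.h 4 0 = Y.h 4 0 := by omega
  have t32 : X.h 3 2 = Y.h 3 2 := by omega
  have t50 : X.h 5 0 = Y.h 5 0 := by omega
  have t41 : X.h 4 1 = Y.h 4 1 := by omega
  interval_cases q
  · interval_cases p
    · exact absurd rfl hne
    · exact h10
    · exact h20
    · exact b1
    · exact t40
    · exact t50
  · interval_cases p
    · exact absurd rfl hne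
    · exact a1
    · exact t31
    · exact t41
    · omega
  · interval_cases p
    · exact absurd rfl hne
    · exact t32
    · omega
    · omega

theorem five_all (Φ : FM X Y) (h10 : X.h 1 0 = Y.h 1 0) (h20 : X.h 2 0 = Y.h 2 0) {e : ℤ}
    (hX : LibgoberWood X e) (hY : LibgoberWood Y e) (p q : ℤ) : X.h p q = Y.h p q := by
  have hoff := five_off Φ h10 h20
  have t0 := Φ.total_all 0 0 {0, 1, 2, 3, 4, 5} (by
    intro k hk
    simp only [Finset.mem_insert, Finset.mem_singleton] at hk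
    push_cast
    omega)
  rw [Finset.sum_insert (by decide), Finset.sum_insert (by decide), Finset.sum_insert (by decide),
    Finset.sum_insert (by decide), Finset.sum_insert (by decide),
    Finset.sum_singleton, Finset.sum_insert (by decide), Finset.sum_insert (by decide),
    Finset.sum_insert (by decide), Finset.sum_insert (by decide), Finset.sum_insert (by decide),
    Finset.sum_singleton] at t0
  norm_num at t0
  have s33 : ∀ Z : KRing 5, Z.h 3 3 = Z.h 2 2 := fun Z => by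
    rw [serre Z]; norm_num
  have s44 : ∀ Z : KRing 5, Z.h 4 4 = Z.h 1 1 := fun Z => by
    rw [serre Z]; norm_num
  have s55 : ∀ Z : KRing 5, Z.h 5 5 = Z.h 0 0 := fun Z => by
    rw [serre Z]; norm_num
  rw [s33, s33, s44, s44, s55, s55] at t0
  unfold LibgoberWood at hX hY
  simp only [Finset.sum_range_succ, Finset.sum_range_zero] at hX hY
  norm_num at hX hY
  have o : ∀ p q : ℤ, p ≠ q → (X.h p q : ℤ) = Y.h p q := fun p q h => by rw [hoff p q h]
  simp only [o 0 1 (by norm_num), o 0 2 (by norm_num), o 0 3 (by norm_num), o 0 4 (by norm_num),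
    o 0 5 (by norm_num), o 1 0 (by norm_num), o 1 2 (by norm_num), o 1 3 (by norm_num),
    o 1 4 (by norm_num), o 1 5 (by norm_num), o 2 0 (by norm_num), o 2 1 (by norm_num),
    o 2 3 (by norm_num), o 2 4 (by norm_num), o 2 5 (by norm_num), o 3 0 (by norm_num),
    o 3 1 (by norm_num), o 3 2 (by norm_num), o 3 4 (by norm_num), o 3 5 (by norm_num),
    o 4 0 (by norm_num), o 4 1 (by norm_num), o 4 2 (by norm_num), o 4 3 (by norm_num),
    o 4 5 (by norm_num), o 5 0 (by norm_num), o 5 1 (by norm_num), o 5 2 (by norm_num),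
    o 5 3 (by norm_num), o 5 4 (by norm_num)] at hX
  rw [s33, s44, s55] at hX hY
  have h00 : X.h 0 0 = Y.h 0 0 := by rw [X.h00, Y.h00]
  have h11 : X.h 1 1 = Y.h 1 1 := by omega
  have h22 : X.h 2 2 = Y.h 2 2 := by omega
  refine reduce (fun _ _ => True) (fun _ _ _ => trivial) (fun _ _ _ => trivial) ?_ p q trivial
  intro p q hq hqp hn _
  by_cases hpq : p = q
  · subst hpq
    push_cast at hn
    have hp2 : p ≤ 2 := by omega
    interval_cases p
    · exact h00
    · exact h11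
    · exact h22
  · exact hoff p q hpq

end five

section six

variable {X Y : KRing 6}

/-- Dimension six. -/
theorem six_off (Φ : FM X Y) (h10 : X.h 1 0 = Y.h 1 0) (h20 : X.h 2 0 = Y.h 2 0)
    (h30 : X.h 3 0 = Y.h 3 0) :
    (∀ p q : ℤ, 2 ≤ |p - q| → X.h p q = Y.h p q) ∧ X.h 2 2 = Y.h 2 2 ∧
      X.h 2 1 + X.h 3 2 = Y.h 2 1 + Y.h 3 2 ∧ X.h 3 3 + 2 * X.h 1 1 = Y.h 3 3 + 2 * Y.h 1 1 := by
  obtain ⟨a1, a2⟩ := Φ.hodge_sums 3 3 rfl
  obtain ⟨b1, b2⟩ := Φ.hodge_sums 4 2 rfl
  obtain ⟨c1, c2⟩ := Φ.hodge_sums 5 1 rfl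
  obtain ⟨-, d2⟩ := Φ.hodge_sums 6 0 rfl
  rw [X.sum_first _ _ (by norm_num) (by norm_num), Y.sum_first _ _ (by norm_num) (by norm_num)]
    at a2 b1 b2 c1 c2 d2
  have a1' : ∀ Z : KRing 6, ∑ i ∈ Finset.range 6,
      Z.h (((3 : ℕ) : ℤ) - 1 - 2 * i) (((3 : ℕ) : ℤ) - 1 - 2 * i) = Z.h 2 2 + Z.h 0 0 := by
    intro Z
    simp only [Finset.sum_range_succ, Finset.sum_range_zero]
    norm_num
    rw [Z.h_neg (p := -2) (q := -2) (by norm_num), Z.h_neg (p := -4) (q := -4) (by norm_num),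
      Z.h_neg (p := -6) (q := -6) (by norm_num), Z.h_neg (p := -8) (q := -8) (by norm_num)]
    simp
  rw [a1', a1', X.h00, Y.h00] at a1
  norm_num at a1 a2 b1 b2 c1 c2 d2
  have z1 : ∀ Z : KRing 6, Z.h 3 (-1) = 0 := fun Z => Z.h_neg (by norm_num)
  have z2 : ∀ Z : KRing 6, Z.h 4 (-2) = 0 := fun Z => Z.h_neg (by norm_num)
  rw [z1, z1] at c2
  rw [z2, z2] at d2
  have t5 := Φ.total_all 5 0 {0, 1} (by
    intro k hk
    simp only [Finset.mem_insert, Finset.mem_singleton] at hk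
    push_cast
    omega)
  have t3 := Φ.total_all 3 0 {0, 1, 2, 3} (by
    intro k hk
    simp only [Finset.mem_insert, Finset.mem_singleton] at hk
    push_cast
    omega)
  have t1 := Φ.total_all 1 0 {0, 1, 2, 3, 4, 5} (by
    intro k hk
    simp only [Finset.mem_insert, Finset.mem_singleton] at hk
    push_cast
    omega)
  rw [Finset.sum_insert (by decide), Finset.sum_singleton, Finset.sum_insert (by decide),
    Finset.sum_singleton] at t5
  rw [Finset.sum_insert (by decide), Finset.sum_insert (by decide), Finset.sum_insert (by decide),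
    Finset.sum_singleton, Finset.sum_insert (by decide), Finset.sum_insert (by decide),
    Finset.sum_insert (by decide), Finset.sum_singleton] at t3
  rw [Finset.sum_insert (by decide), Finset.sum_insert (by decide), Finset.sum_insert (by decide),
    Finset.sum_insert (by decide), Finset.sum_insert (by decide),
    Finset.sum_singleton, Finset.sum_insert (by decide), Finset.sum_insert (by decide),
    Finset.sum_insert (by decide), Finset.sum_insert (by decide), Finset.sum_insert (by decide),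
    Finset.sum_singleton] at t1
  norm_num at t5 t3 t1
  have s61 : ∀ Z : KRing 6, Z.h 6 1 = Z.h 5 0 := fun Z => by
    rw [serre Z, Z.h_swap]; norm_num
  have s52 : ∀ Z : KRing 6, Z.h 5 2 = Z.h 4 1 := fun Z => by
    rw [serre Z, Z.h_swap]; norm_num
  have s63 : ∀ Z : KRing 6, Z.h 6 3 = Z.h 3 0 := fun Z => by
    rw [serre Z, Z.h_swap]; norm_num
  have s43 : ∀ Z : KRing 6, Z.h 4 3 = Z.h 3 2 := fun Z => by
    rw [serre Z, Z.h_swap]; norm_num
  have s54 : ∀ Z : KRing 6, Z.h 5 4 = Z.h 2 1 := fun Z => by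
    rw [serre Z, Z.h_swap]; norm_num
  have s65 : ∀ Z : KRing 6, Z.h 6 5 = Z.h 1 0 := fun Z => by
    rw [serre Z, Z.h_swap]; norm_num
  rw [s61, s61] at t5
  rw [s52, s52, s63, s63] at t3
  rw [s43, s43, s54, s54, s65, s65] at t1
  have u22 : X.h 2 2 = Y.h 2 2 := by omega
  have u50 : X.h 5 0 = Y.h 5 0 := by omega
  have u41 : X.h 4 1 = Y.h 4 1 := by omega
  have u42 : X.h 4 2 = Y.h 4 2 := by omega
  have u51 : X.h 5 1 = Y.h 5 1 := by omega
  have u60 : X.h 6 0 = Y.h 6 0 := by omega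
  refine ⟨?_, u22, by omega, by omega⟩
  intro p q hpq
  refine reduce (fun p q => 2 ≤ |p - q|) (fun p q h => by rwa [abs_sub_comm]) (fun p q h => by
    rw [show ((6 : ℕ) : ℤ) - p - (((6 : ℕ) : ℤ) - q) = q - p by ring, abs_sub_comm]
    exact h) ?_ p q hpq
  intro p q hq hqp hn hne
  rw [abs_of_nonneg (by omega)] at hne
  push_cast at hn
  have hp5 : p ≤ 6 := by omega
  have hq2 : q ≤ 2 := by omega
  interval_cases q
  · interval_cases p
    · omega
    · omega
    · exact h20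
    · exact h30
    · exact c1
    · exact u50
    · exact u60
  · interval_cases p
    · omega
    · omega
    · exact b1
    · exact u41
    · exact u51
    · omega
  · interval_cases p
    · omega
    · omega
    · exact u42
    · omega
    · omega

theorem six_all (Φ : FM X Y) (h10 : X.h 1 0 = Y.h 1 0) (h20 : X.h 2 0 = Y.h 2 0)
    (h30 : X.h 3 0 = Y.h 3 0) {e : ℤ} (hX : LibgoberWood X e) (hY : LibgoberWood Y e) :
    X.h 1 1 + Y.h 2 1 = Y.h 1 1 + X.h 2 1 ∧
      (X.h 1 1 = Y.h 1 1 → ∀ p q : ℤ, X.h p q = Y.h p q) := by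
  obtain ⟨hoff, u22, v1, v0⟩ := six_off Φ h10 h20 h30
  have s1 : ∀ Z : KRing 6, Z.h 0 1 = Z.h 1 0 ∧ Z.h 1 2 = Z.h 2 1 ∧ Z.h 2 3 = Z.h 3 2 ∧
      Z.h 3 4 = Z.h 3 2 ∧ Z.h 4 5 = Z.h 2 1 ∧ Z.h 5 6 = Z.h 1 0 ∧ Z.h 4 3 = Z.h 3 2 ∧
      Z.h 5 4 = Z.h 2 1 ∧ Z.h 6 5 = Z.h 1 0 ∧ Z.h 4 4 = Z.h 2 2 ∧ Z.h 5 5 = Z.h 1 1 ∧
      Z.h 6 6 = Z.h 0 0 := by
    intro Z
    refine ⟨Z.h_swap 0 1, Z.h_swap 1 2, Z.h_swap 2 3, ?_, ?_, ?_, ?_, ?_, ?_, ?_, ?_, ?_⟩
    · rw [serre Z]; norm_num
    · rw [serre Z]; norm_num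
    · rw [serre Z]; norm_num
    · rw [serre Z, Z.h_swap]; norm_num
    · rw [serre Z, Z.h_swap]; norm_num
    · rw [serre Z, Z.h_swap]; norm_num
    · rw [serre Z]; norm_num
    · rw [serre Z]; norm_num
    · rw [serre Z]; norm_num
  unfold LibgoberWood at hX hY
  simp only [Finset.sum_range_succ, Finset.sum_range_zero] at hX hY
  norm_num at hX hY
  obtain ⟨x1, x2, x3, x4, x5, x6, x7, x8, x9, x10, x11, x12⟩ := s1 X
  obtain ⟨y1, y2, y3, y4, y5, y6, y7, y8, y9, y10, y11, y12⟩ := s1 Y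
  rw [x1, x2, x3, x4, x5, x6, x7, x8, x9, x10, x11, x12, X.h00, h10, u22] at hX
  rw [y1, y2, y3, y4, y5, y6, y7, y8, y9, y10, y11, y12, Y.h00] at hY
  have o : ∀ p q : ℤ, 2 ≤ |p - q| → (X.h p q : ℤ) = Y.h p q := fun p q h => by rw [hoff p q h]
  simp only [o 0 2 (by norm_num), o 0 3 (by norm_num), o 0 4 (by norm_num),
    o 0 5 (by norm_num), o 0 6 (by norm_num), o 1 3 (by norm_num),
    o 1 4 (by norm_num), o 1 5 (by norm_num), o 1 6 (by norm_num), o 2 0 (by norm_num),
    o 2 4 (by norm_num), o 2 5 (by norm_num), o 2 6 (by norm_num), o 3 0 (by norm_num),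
    o 3 1 (by norm_num), o 3 5 (by norm_num), o 3 6 (by norm_num),
    o 4 0 (by norm_num), o 4 1 (by norm_num), o 4 2 (by norm_num), o 4 6 (by norm_num),
    o 5 0 (by norm_num), o 5 1 (by norm_num), o 5 2 (by norm_num),
    o 5 3 (by norm_num), o 6 0 (by norm_num), o 6 1 (by norm_num), o 6 2 (by norm_num),
    o 6 3 (by norm_num), o 6 4 (by norm_num)] at hX
  have key : X.h 1 1 + Y.h 2 1 = Y.h 1 1 + X.h 2 1 := by omega
  refine ⟨key, fun h11 p q => ?_⟩
  have h21 : X.h 2 1 = Y.h 2 1 := by omega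
  have h32 : X.h 3 2 = Y.h 3 2 := by omega
  have h33 : X.h 3 3 = Y.h 3 3 := by omega
  refine reduce (fun _ _ => True) (fun _ _ _ => trivial) (fun _ _ _ => trivial) ?_ p q trivial
  intro p q hq hqp hn _
  by_cases hpq : 2 ≤ |p - q|
  · exact hoff p q hpq
  · rw [abs_of_nonneg (by omega)] at hpq
    push_cast at hn
    have hp3 : p ≤ 3 := by omega
    have hp0 : 0 ≤ p := by omega
    interval_cases p
    · interval_cases q
      rw [X.h00, Y.h00]
    · interval_cases q
      · exact h10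
      · exact h11
    · interval_cases q
      · omega
      · exact h21
      · exact u22
    · interval_cases q
      · omega
      · omega
      · exact h32
      · exact h33

end six

end Pool.Agent.P8H56.DH
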