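import Pool.Agent.R929.DH.Low

/-!
# Linear algebra for degenerate limits of hermitian forms
-/

open Module

namespace Pool.Agent.P8H56.DH

open Pool.Agent.R929.DH

/-- A functional which vanishes on the radical of a symmetric bilinear form is represented by it. -/
theorem riesz {V : Type*} [AddCommGroup V] [Module ℝ V] [FiniteDimensional ℝ V]
    (T : V →ₗ[ℝ] V →ₗ[ℝ] ℝ) (hT : ∀ x y, T x y = T y x) (l : V →ₗ[ℝ] ℝ)
    (h : ∀ y, (∀ z, T z y = 0) → l y = 0) : ∃ z, ∀ y, l y = T z y := by
  have h1 : l ∈ (LinearMap.ker T).dualAnnihilator := by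
    rw [Submodule.mem_dualAnnihilator]
    intro w hw
    refine h w fun z => ?_
    rw [hT]
    have : T w = 0 := hw
    rw [this]
    rfl
  rw [← LinearMap.range_dualMap_eq_dualAnnihilator_ker] at h1
  obtain ⟨Φ, hΦ⟩ := h1
  obtain ⟨z, hz⟩ := (Module.evalEquiv ℝ V).surjective Φ
  refine ⟨z, fun y => ?_⟩
  have h2 : l y = Φ (T y) := by rw [← hΦ]; rfl
  rw [h2, ← hz, hT z y]
  rfl

variable {R : Type*} [AddCommGroup R] [Module ℂ R] [FiniteDimensional ℂ R] {β : R → R → ℝ}

/-- If the maximal positive and negative subspaces of `U` have complementary dimensions, then every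
coset of the negative one contains a vector where the form is nonnegative. -/
theorem exists_nonneg (h : IsHerm β) (U N P : Submodule ℂ R) (hN : N ≤ U) (hP : P ≤ U)
    (hNn : ∀ x ∈ N, x ≠ 0 → β x x < 0) (hPp : ∀ x ∈ P, x ≠ 0 → 0 < β x x)
    (hd : finrank ℂ U ≤ finrank ℂ N + finrank ℂ P) {x : R} (hx : x ∈ U) :
    ∃ y ∈ N, 0 ≤ β (x + y) (x + y) := by
  by_contra hcon
  push Not at hcon
  have hxN : x ∉ N := by
    intro hxN
    have := hcon (-x) (N.neg_mem hxN)
    rw [add_neg_cancel, h.zero_left] at this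
    exact lt_irrefl _ this
  have hneg : ∀ z ∈ N ⊔ Submodule.span ℂ {x}, z ≠ 0 → β z z < 0 := by
    intro z hz hz0
    obtain ⟨y, hy, w, hw, rfl⟩ := Submodule.mem_sup.1 hz
    obtain ⟨c, rfl⟩ := Submodule.mem_span_singleton.1 hw
    by_cases hc : c = 0
    · rw [hc, zero_smul, add_zero] at hz0 ⊢
      exact hNn y hy hz0
    · have e : y + c • x = c • (x + c⁻¹ • y) := by
        rw [smul_add, smul_smul, mul_inv_cancel₀ hc, one_smul, add_comm]
      rw [e, h.smul_self]
      exact mul_neg_of_pos_of_neg (Complex.normSq_pos.mpr hc) (hcon _ (N.smul_mem _ hy))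
  have hle : N ⊔ Submodule.span ℂ {x} ≤ U :=
    sup_le hN ((Submodule.span_singleton_le_iff_mem _ _).2 hx)
  have hdis : (N ⊔ Submodule.span ℂ {x}) ⊓ P = ⊥ := by
    rw [eq_bot_iff]
    rintro z ⟨hz1, hz2⟩
    rw [Submodule.mem_bot]
    by_contra hz0
    have := hneg z hz1 hz0
    have := hPp z hz2 hz0
    linarith
  have h1 := Submodule.finrank_sup_add_finrank_inf_eq (N ⊔ Submodule.span ℂ {x}) P
  rw [hdis, finrank_bot, add_zero] at h1
  have h2 := Submodule.finrank_mono (sup_le hle hP)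
  have h3 : N < N ⊔ Submodule.span ℂ {x} := by
    refine lt_of_le_of_ne le_sup_left fun heq => hxN ?_
    rw [heq]
    exact Submodule.mem_sup_right (Submodule.mem_span_singleton_self x)
  have h4 := Submodule.finrank_lt_finrank_of_lt h3
  omega

end Pool.Agent.P8H56.DH
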