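import Pool.Agent.P8H56.DH.Rank

/-!
# The derived invariance of the rank of powers of a semipositive class on holomorphic forms
-/

open scoped ComplexConjugate Topology
open Module

namespace Pool.Agent.P8H56.DH

open Pool.Agent.W539.DI Pool.Agent.R929.DH

variable {n : ℕ}

theorem disj_FF (X : KRing n) (a b : ℤ) {s t : Finset ℤ} (h : Disjoint s t) :
    X.F a b s ⊓ X.F a b t = ⊥ := by
  classical
  have h1 := Submodule.finrank_sup_add_finrank_inf_eq (X.F a b s) (X.F a b t)
  have h2 : X.F a b s ⊔ X.F a b t = X.F a b (s ∪ t) := by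
    unfold KRing.F
    rw [Finset.iSup_union]
  rw [h2, X.finrank_F, X.finrank_F, X.finrank_F, Finset.sum_union h] at h1
  have h3 : finrank ℂ (X.F a b s ⊓ X.F a b t : Submodule ℂ X.R) = 0 := by omega
  exact Submodule.finrank_eq_zero.1 h3

theorem mid_le (X : KRing n) (a b : ℤ) : X.H (a, b) ≤ X.F a b {0} := by
  intro x hx
  refine X.mem_F (Finset.mem_singleton_self _) ?_
  rwa [add_zero, add_zero]

theorem low_le (X : KRing n) (p : ℤ) : X.H (p, 0) ≤ X.F (p + 1) 1 {-1} := by
  intro x hx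
  refine X.mem_F (Finset.mem_singleton_self _) ?_
  have e : ((p + 1 + -1, (1 : ℤ) + -1) : ℤ × ℤ) = (p, 0) := by ext <;> simp
  rwa [e]

theorem F_mono (X : KRing n) (a b : ℤ) {s t : Finset ℤ} (h : s ⊆ t) : X.F a b s ≤ X.F a b t :=
  biSup_mono fun _ hk => h hk

theorem hs_low (X : KRing n) (p : ℤ) (hn : 1 ≤ n) : hs X (p + 1) 1 (sm n) = X.h p 0 := by
  rw [hs_sm, Finset.sum_eq_single 0]
  · simp
  · intro j _ hj
    refine X.h_neg (Or.inr ?_)
    omega
  · intro h
    rw [Finset.mem_range] at h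
    omega

section
variable {X : KRing n} {L : X.R}

theorem hf_killed_left (hL : L ∈ X.H (1, 1)) {k : ℕ} {p : ℤ} {z : X.R} (hz : z ∈ killed X L k p)
    (y : X.R) : hf X L k z y = 0 := by
  obtain ⟨h1, h2⟩ := mem_killed.1 hz
  unfold hf
  rw [X.dual_of h1, smul_mul_assoc, ← mul_assoc, ← pow_central hL, h2, zero_mul, smul_zero,
    map_zero]

theorem hf_killed_right (hb : X.bar L = L) {k : ℕ} {p : ℤ} {z : X.R} (hz : z ∈ killed X L k p)
    (y : X.R) : hf X L k y z = 0 := by
  obtain ⟨-, h2⟩ := mem_killed.1 hz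
  unfold hf
  rw [← bar_pow hb, h2, map_zero, mul_zero, map_zero]

/-- A subspace of the column of `(p, 0)` where the form is nonnegative. -/
theorem exists_pos (hL : Semipositive X L) {p : ℤ} {k : ℕ} (hk : p + k + 2 = n) :
    ∃ W : Submodule ℂ X.R, W ≤ (⨆ j : ℤ, X.H (p + 1 + j, 1 + j)) ∧
      (∀ x ∈ W, 0 ≤ sg (p + 1) 1 * bf X L k x x) ∧
      hs X (p + 1) 1 (sp n) + X.h (p + 1) 1 + 2 * finrank ℂ (killed X L k p) ≤
        finrank ℂ W + X.h p 0 := by
  have hab : (p + 1 : ℤ) + 1 + k = n := by omega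
  obtain ⟨M, M', hM, hM', neg, pos, hsum, -⟩ :=
    exists_max_sub (isHerm (X := X) (w := L) (k := k) (sg (p + 1) 1)) (X.H (p + 1, 1))
  have hMle := neg_le hL hk M hM neg
  have hH := isHerm (X := X) (w := L) (k := k) (sg (p + 1) 1)
  let K := killed X L k p
  have hKle : K ≤ X.F (p + 1) 1 {-1} := (killed_le k p).trans (low_le X p)
  have hM'le : M' ≤ X.F (p + 1) 1 {0} := hM'.trans (mid_le X _ _)
  refine ⟨X.F (p + 1) 1 (sp n) ⊔ (M' ⊔ K), ?_, ?_, ?_⟩
  · exact sup_le (F_le _ _ _) (sup_le (hM'le.trans (F_le _ _ _)) (hKle.trans (F_le _ _ _)))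
  · intro x hx
    obtain ⟨f, hf1, y, hy, rfl⟩ := Submodule.mem_sup.1 hx
    obtain ⟨m, hm, z, hz, rfl⟩ := Submodule.mem_sup.1 hy
    have e : bf X L k (f + (m + z)) (f + (m + z)) = bf X L k m m := by
      rw [← (bf_sup hL.mem hab n hf1 (hM' hm)).1, ← add_assoc]
      unfold bf
      simp only [hf_add_left (f + m) z, hf_add_right _ (f + m) z, hf_killed_left hL.mem hz,
        hf_killed_right hL.real hz, add_zero]
    rw [e]
    exact pos m hm
  · have h1 := Submodule.finrank_sup_add_finrank_inf_eq (X.F (p + 1) 1 (sp n)) (M' ⊔ K)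
    have h2 : X.F (p + 1) 1 (sp n) ⊓ (M' ⊔ K) = ⊥ := by
      rw [eq_bot_iff, ← disj_FF X (p + 1) 1 (s := sp n) (t := {0, -1}) (by
        rw [Finset.disjoint_left]
        intro j hj hj2
        rw [mem_sp] at hj
        rw [Finset.mem_insert, Finset.mem_singleton] at hj2
        omega)]
      refine inf_le_inf_left _ (sup_le (hM'le.trans (F_mono X _ _ ?_)) (hKle.trans
        (F_mono X _ _ ?_)))
      · intro j hj
        rw [Finset.mem_singleton] at hj
        simp [hj]
      · intro j hj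
        rw [Finset.mem_singleton] at hj
        simp [hj]
    have h3 := Submodule.finrank_sup_add_finrank_inf_eq M' K
    have h4 : M' ⊓ K = ⊥ := by
      rw [eq_bot_iff, ← disj_FF X (p + 1) 1 (s := {0}) (t := {-1}) (by simp)]
      exact inf_le_inf hM'le hKle
    rw [h2, finrank_bot, add_zero] at h1
    rw [h4, finrank_bot, add_zero] at h3
    rw [h1, h3, X.finrank_F]
    have h5 : hs X (p + 1) 1 (sp n) = ∑ k ∈ sp n, X.h (p + 1 + k) (1 + k) := rfl
    have h6 : finrank ℂ M + finrank ℂ M' = X.h (p + 1) 1 := hsum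
    show _ + _ + 2 * finrank ℂ K ≤ _
    have hMle' : finrank ℂ M + finrank ℂ K ≤ X.h p 0 := hMle
    omega

/-- A subspace of the middle piece where the form is negative definite. -/
theorem exists_negdef (hL : Semipositive X L) {p : ℤ} {k : ℕ} (hk : p + k + 2 = n) :
    ∃ N : Submodule ℂ X.R, N ≤ X.H (p + 1, 1) ∧
      (∀ x ∈ N, x ≠ 0 → sg (p + 1) 1 * bf X L k x x < 0) ∧
      finrank ℂ N + finrank ℂ (killed X L k p) = X.h p 0 := by
  let K := killed X L k p
  obtain ⟨C0, hC⟩ := Submodule.exists_isCompl K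
  let C : Submodule ℂ X.R := X.H (p, 0) ⊓ C0
  have hKC : K ⊔ C = X.H (p, 0) := by
    have : K ⊔ C0 ⊓ X.H (p, 0) = (K ⊔ C0) ⊓ X.H (p, 0) :=
      (sup_inf_assoc_of_le C0 (killed_le k p)).symm
    show K ⊔ X.H (p, 0) ⊓ C0 = X.H (p, 0)
    rw [inf_comm, this, hC.sup_eq_top, top_inf_eq]
  have hKCd : K ⊓ C = ⊥ := by
    rw [eq_bot_iff]
    rintro x ⟨hx1, -, hx2⟩
    have : x ∈ K ⊓ C0 := ⟨hx1, hx2⟩
    rwa [hC.inf_eq_bot] at this
  have hdim : finrank ℂ K + finrank ℂ C = X.h p 0 := by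
    have h1 := Submodule.finrank_sup_add_finrank_inf_eq K C
    rw [hKC, hKCd, finrank_bot, add_zero] at h1
    exact h1.symm
  have hneg : ∀ y ∈ C, y ≠ 0 → sg (p + 1) 1 * bf X L k (X.ω * y) (X.ω * y) < 0 := by
    intro y hy hy0
    rcases mixed hL hk le_rfl hy.1 with ⟨h, -⟩ | ⟨-, h⟩
    · exfalso
      have h1 : y ∈ K ⊓ C := ⟨mem_killed.2 ⟨hy.1, h⟩, hy⟩
      rw [hKCd, Submodule.mem_bot] at h1
      exact hy0 h1
    · rw [Nat.sub_self, pow_zero, mul_one] at h
      exact h
  refine ⟨C.map (ml X X.ω), ?_, ?_, ?_⟩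
  · rintro _ ⟨y, hy, rfl⟩
    simpa using omega_mem hy.1
  · rintro _ ⟨y, hy, rfl⟩ hy0
    refine hneg y hy ?_
    rintro rfl
    exact hy0 (by simp)
  · have h1 : finrank ℂ (C.map (ml X X.ω) : Submodule ℂ X.R) = finrank ℂ C := by
      refine finrank_map_of_inj _ _ fun y hy h => ?_
      by_contra hy0
      have h2 := hneg y hy hy0
      have h3 : X.ω * y = 0 := h
      rw [h3, (isHerm (X := X) (w := L) (k := k) (sg (p + 1) 1)).zero_left] at h2
      exact lt_irrefl _ h2
    rw [h1, add_comm]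
    exact hdim

end

variable {X Y : KRing n} {Φ : FM X Y} {L : X.R} {L' : Y.R}

/-- **The basic inequality.** -/
theorem ineq (hX : Semipositive X L) (hY : Semipositive Y L') (hc : Intertwines Φ X.c Y.c)
    (hΦ : Intertwines Φ L L') {p : ℤ} (hp : 0 ≤ p) {k : ℕ} (hk : p + k + 2 = n) :
    Y.h p 0 + finrank ℂ (killed X L k p) ≤ X.h p 0 + finrank ℂ (killed Y L' k p) := by
  have hab : (p + 1 : ℤ) + 1 + k = n := by omega
  obtain ⟨W, hW, pos, hWd⟩ := exists_pos hX hk
  obtain ⟨N, hN, neg, hNd⟩ := exists_negdef hY hk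
  obtain ⟨K, hK, hK2⟩ := exists_ker' hY hk n (by omega)
  have hH := isHerm (X := Y) (w := L') (k := k) (sg (p + 1) 1)
  have h1 := semi_sub hH (⨆ j : ℤ, Y.H (p + 1 + j, 1 + j))
    (Submodule.map (Φ.φ : X.R →ₗ[ℂ] Y.R) W) (Y.F (p + 1) 1 (sp n) ⊔ N) K
    (by
      rw [← Φ.hodge (p + 1) 1]
      exact Submodule.map_mono hW)
    (sup_le (F_le _ _ _) (hN.trans (H_le _ _)))
    (by
      rintro _ ⟨x, hx, rfl⟩
      show 0 ≤ sg (p + 1) 1 * bf Y L' k (Φ.φ x) (Φ.φ x)
      rw [bf_iso hc hΦ]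
      exact pos x hx)
    (by
      intro x hx
      obtain ⟨f, hf1, m, hm, rfl⟩ := Submodule.mem_sup.1 hx
      rw [(bf_sup hY.mem hab n hf1 (hN hm)).1]
      by_cases hm0 : m = 0
      · rw [hm0]
        exact le_of_eq (hH.zero_left 0)
      · exact (neg m hm hm0).le)
    (by
      intro x hx hxy
      obtain ⟨f, hf1, m, hm, rfl⟩ := Submodule.mem_sup.1 hx
      have hm0 : m = 0 := by
        by_contra hm0
        have h2 := hxy m (H_le _ _ (hN hm))
        rw [(bf_sup hY.mem hab n hf1 (hN hm)).2.1] at h2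
        have h3 := neg m hm hm0
        linarith
      rw [hm0, add_zero]
      have h4 : ∀ y ∈ Y.H (p, 0), (hf Y L' k f y).re = 0 := by
        intro y hy
        have hyF : y ∈ Y.F (p + 1) 1 (sm n) := F_mono Y _ _ (by
          intro j hj
          rw [Finset.mem_singleton] at hj
          rw [mem_sm]
          omega) (low_le Y p hy)
        have h2 := hxy y (F_le _ _ _ hyF)
        rw [(bf_sup hY.mem hab n hf1 (hN hm)).2.2 y hyF] at h2
        have h3 := (mul_eq_zero.mp h2).resolve_left (sg_ne _ _)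
        unfold bf at h3
        rw [hf_F_conj hY.mem hY.real hab _ _ hf1 hyF, Complex.conj_re] at h3
        linarith
      refine hK2 f hf1 fun y hy => ?_
      have h5 := h4 (Complex.I • y) (Submodule.smul_mem _ _ hy)
      rw [hf_smul_right, Complex.conj_I] at h5
      refine Complex.ext (h4 y hy) ?_
      simp only [Complex.mul_re, Complex.neg_re, Complex.I_re, Complex.neg_im, Complex.I_im] at h5
      simp only [Complex.zero_im]
      linarith)
  have hT : finrank ℂ (⨆ j : ℤ, Y.H (p + 1 + j, 1 + j) : Submodule ℂ Y.R) =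
      hs Y (p + 1) 1 (sm n) + (Y.h (p + 1) 1 + hs Y (p + 1) 1 (sp n)) := by
    rw [Y.total_all (p + 1) 1 (sm n ∪ ({0} ∪ sp n)) ?_, Finset.sum_union, Finset.sum_union,
      Finset.sum_singleton, add_zero, add_zero]
    · rfl
    · rw [Finset.disjoint_left]
      intro k hk hk2
      rw [Finset.mem_singleton] at hk
      rw [mem_sp] at hk2
      omega
    · rw [Finset.disjoint_left]
      intro k hk hk2
      rw [mem_sm] at hk
      rw [Finset.mem_union, Finset.mem_singleton, mem_sp] at hk2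
      omega
    · intro k hk
      rw [Finset.mem_union, Finset.mem_union, Finset.mem_singleton, mem_sp, mem_sm] at hk
      omega
  rw [← total_eq Φ hab (by omega) (by omega), hs_low X p (by omega)] at hT
  rw [LinearEquiv.finrank_map_eq, finrank_sup' hN, hT] at h1
  omega

/-- **The rank of `L ^ (n - 2 - p)` on the holomorphic `p`-forms is a derived invariant.** -/
theorem rank_eq (hX : Semipositive X L) (hY : Semipositive Y L') (hc : Intertwines Φ X.c Y.c)
    (hΦ : Intertwines Φ L L') {p : ℤ} (hp : 0 ≤ p) {k : ℕ} (hk : p + k + 2 = n) :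
    X.h p 0 + finrank ℂ (killed Y L' k p) = Y.h p 0 + finrank ℂ (killed X L k p) :=
  le_antisymm (ineq (Φ := symm Φ) hY hX hc.symm hΦ.symm hp hk) (ineq hX hY hc hΦ hp hk)

/-- If `L ^ (n - 2)` is not zero then nothing is killed. -/
theorem killed_eq_bot (hX : Semipositive X L) {p k m : ℕ} (hm : p + k = m) (h : L ^ m ≠ 0) :
    killed X L k p = ⊥ := by
  rw [eq_bot_iff]
  intro x hx
  rw [Submodule.mem_bot]
  by_contra h0
  obtain ⟨h1, h2⟩ := mem_killed.1 hx
  exact h (hm ▸ hX.rank p k x h1 h0 h2)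

/-- The numerical dimension is at least `n - 2` for `X` if and only if it is for `Y`. -/
theorem pow_ne_zero_iff (hX : Semipositive X L) (hY : Semipositive Y L')
    (hc : Intertwines Φ X.c Y.c) (hΦ : Intertwines Φ L L') {m : ℕ} (hm : m + 2 = n)
    (h : L ^ m ≠ 0) : L' ^ m ≠ 0 := by
  intro h0
  have h1 := rank_eq hX hY hc hΦ (p := 0) le_rfl (k := m) (by omega)
  have h2 : killed X L m 0 = ⊥ := by
    have := killed_eq_bot hX (p := 0) (k := m) (m := m) (by omega) h
    exact_mod_cast this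
  have h3 : killed Y L' m 0 = Y.H (0, 0) := by
    refine le_antisymm (killed_le m 0) fun x hx => mem_killed.2 ⟨hx, ?_⟩
    rw [h0, zero_mul]
  have h4 : finrank ℂ (Y.H (0, 0)) = 1 := Y.conn
  rw [h2, h3, h4, finrank_bot, X.h00, Y.h00] at h1
  omega

/-- The numbers of holomorphic forms, if the numerical dimension is at least `n - 2`. -/
theorem forms_eq (hX : Semipositive X L) (hY : Semipositive Y L') (hc : Intertwines Φ X.c Y.c)
    (hΦ : Intertwines Φ L L') {m : ℕ} (hm : m + 2 = n) (h : L ^ m ≠ 0) {p k : ℕ}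
    (hk : p + k + 2 = n) : X.h p 0 = Y.h p 0 := by
  have h1 := rank_eq hX hY hc hΦ (p := p) (by omega) (k := k) (by omega)
  have h' := pow_ne_zero_iff hX hY hc hΦ hm h
  rw [killed_eq_bot hX (m := m) (by omega) h, killed_eq_bot hY (m := m) (by omega) h',
    finrank_bot, finrank_bot, add_zero, add_zero] at h1
  exact h1

end Pool.Agent.P8H56.DH
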