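import Pool.Agent.P8H56.DH.Defs
import Pool.Agent.P8H56.DH.Lin

/-!
# Mixed hermitian forms
-/

open scoped ComplexConjugate Topology
open Module

namespace Pool.Agent.P8H56.DH

open Pool.Agent.W539.DI Pool.Agent.R929.DH

variable {n : ℕ} (X : KRing n)

/-- The form `∫ x^∨ u bar y`. -/
noncomputable def gf (u x y : X.R) : ℂ := X.tr (X.dual x * (u * X.bar y))

/-- Its real part, symmetrised. -/
noncomputable def bg (u x y : X.R) : ℝ := (gf X u x y).re + (gf X u y x).re

variable {X} {u v : X.R}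

theorem gf_add_left (x y z : X.R) : gf X u (x + y) z = gf X u x z + gf X u y z := by
  unfold gf
  rw [map_add, add_mul, map_add]

theorem gf_add_right (x y z : X.R) : gf X u x (y + z) = gf X u x y + gf X u x z := by
  unfold gf
  rw [map_add, mul_add, mul_add, map_add]

theorem gf_smul_left (a : ℂ) (x z : X.R) : gf X u (a • x) z = a * gf X u x z := by
  unfold gf
  rw [map_smul, smul_mul_assoc, map_smul, smul_eq_mul]

theorem gf_smul_right (a : ℂ) (x z : X.R) : gf X u x (a • z) = conj a * gf X u x z := by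
  unfold gf
  rw [LinearMap.map_smulₛₗ, mul_smul_comm, mul_smul_comm, map_smul, smul_eq_mul]

theorem gf_add (u v x z : X.R) : gf X (u + v) x z = gf X u x z + gf X v x z := by
  unfold gf
  rw [add_mul, mul_add, map_add]

theorem gf_smul (a : ℂ) (u x z : X.R) : gf X (a • u) x z = a * gf X u x z := by
  unfold gf
  rw [smul_mul_assoc, mul_smul_comm, map_smul, smul_eq_mul]

theorem isHerm_g (e : ℝ) : IsHerm (fun x y : X.R => e * bg X u x y) where
  add x y z := by
    simp only [bg, gf_add_left, gf_add_right, Complex.add_re]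
    ring
  smul r x z := by
    simp only [bg, gf_smul_left, gf_smul_right, Complex.conj_ofReal, Complex.re_ofReal_mul]
    ring
  symm x y := by
    simp only [bg]
    ring
  inv x y := by
    have h1 : ∀ x y : X.R, gf X u (Complex.I • x) (Complex.I • y) = gf X u x y := by
      intro x y
      rw [gf_smul_left, gf_smul_right, ← mul_assoc, Complex.conj_I, mul_neg, Complex.I_mul_I]
      ring
    simp only [bg, h1]

theorem bg_add (u v x z : X.R) : bg X (u + v) x z = bg X u x z + bg X v x z := by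
  simp only [bg, gf_add, Complex.add_re]
  ring

theorem bg_smul (r : ℝ) (u x z : X.R) : bg X ((r : ℂ) • u) x z = r * bg X u x z := by
  simp only [bg, gf_smul, Complex.re_ofReal_mul]
  ring

theorem bg_zero (x z : X.R) : bg X 0 x z = 0 := by
  simp [bg, gf]

theorem bg_sum (s : Finset ℕ) (f : ℕ → X.R) (x z : X.R) :
    bg X (∑ i ∈ s, f i) x z = ∑ i ∈ s, bg X (f i) x z := by
  classical
  induction s using Finset.induction_on with
  | empty => simp [bg_zero]
  | insert a s ha ih => rw [Finset.sum_insert ha, Finset.sum_insert ha, bg_add, ih]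

theorem bf_eq (w : X.R) (k : ℕ) (x y : X.R) : bf X w k x y = bg X (w ^ k) x y := rfl

/-- The expansion of the form of `L + t ω`. -/
theorem bf_expand {L : X.R} (hL : L ∈ X.H (1, 1)) (t : ℝ) (k : ℕ) (x y : X.R) :
    bf X (L + (t : ℂ) • X.ω) k x y =
      ∑ i ∈ Finset.range (k + 1), (k.choose i * t ^ (k - i)) * bg X (L ^ i * X.ω ^ (k - i)) x y := by
  have hc : Commute L ((t : ℂ) • X.ω) := X.central hL _
  rw [bf_eq, hc.add_pow, bg_sum]
  refine Finset.sum_congr rfl fun i _ => ?_
  have e : L ^ i * ((t : ℂ) • X.ω) ^ (k - i) * (k.choose i : X.R) =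
      (((k.choose i * t ^ (k - i) : ℝ)) : ℂ) • (L ^ i * X.ω ^ (k - i)) := by
    rw [smul_pow, mul_smul_comm, smul_mul_assoc, ← Nat.cast_comm, ← nsmul_eq_mul,
      ← Nat.cast_smul_eq_nsmul ℂ, smul_smul]
    congr 1
    push_cast
    ring
  rw [e, bg_smul]

/-- The sign of the mixed forms on `ω y` for a holomorphic form `y`. -/
theorem gf_omega {p : ℤ} {y : X.R} (hy : y ∈ X.H (p, 0)) (L : X.R) (hL : L ∈ X.H (1, 1))
    (i m : ℕ) : (sg (p + 1) 1 : ℂ) * gf X (L ^ i * X.ω ^ m) (X.ω * y) (X.ω * y) =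
      -(Complex.I ^ p * (-1 : ℂ) ^ (p * (p - 1) / 2) *
        X.tr (L ^ i * (X.ω ^ (m + 2) * (y * X.bar y)))) := by
  have h1 : sg (p + 1) 1 = sg p 0 := by
    have := sg_pred (p + 1) 1
    rw [← this]
    congr 1 <;> ring
  have h2 := sg_I p 0
  rw [add_zero, sub_zero] at h2
  have e1 : X.dual (X.ω * y) * (L ^ i * X.ω ^ m * X.bar (X.ω * y)) =
      -(Complex.I ^ p • (L ^ i * (X.ω ^ (m + 2) * (y * X.bar y)))) := by
    rw [dual_mul X.ω_mem, X.dual_of hy, add_zero, mul_smul_comm, neg_mul, smul_mul_assoc, X.bar_mul,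
      X.ω_bar]
    congr 2
    have a1 : X.ω * y * (L ^ i * X.ω ^ m * (X.ω * X.bar y)) =
        L ^ i * (X.ω * y * (X.ω ^ m * (X.ω * X.bar y))) := by
      rw [mul_assoc (L ^ i), ← mul_assoc (X.ω * y), ← pow_central hL, mul_assoc (L ^ i)]
    rw [a1]
    congr 1
    rw [← mul_assoc (X.ω ^ m), ← pow_succ, ← mul_assoc (X.ω * y), ← pow_central X.ω_mem,
      mul_assoc (X.ω ^ (m + 1)), mul_assoc X.ω y, ← mul_assoc (X.ω ^ (m + 1)), ← pow_succ]
  unfold gf
  rw [e1, map_neg, map_smul, smul_eq_mul, h1, mul_neg, ← mul_assoc, h2]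

end Pool.Agent.P8H56.DH
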