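import Pool.Agent.P8H56.DH.Semi

/-!
# Dimensions: the classes killed by powers of a semipositive class
-/

open scoped ComplexConjugate Topology
open Module

namespace Pool.Agent.P8H56.DH

open Pool.Agent.W539.DI Pool.Agent.R929.DH

variable {n : ℕ} {X : KRing n} {L : X.R}

theorem finrank_comap_bar (S : Submodule ℂ X.R) : finrank ℂ (S.comap X.bar) = finrank ℂ S := by
  let e : S.comap X.bar ≃ₗ[ℝ] S :=
    { toFun := fun x => ⟨X.bar x, x.2⟩
      map_add' := fun x y => by ext; simp
      map_smul' := fun r x => by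
        ext
        show X.bar (((r • x : S.comap X.bar) : X.R)) = r • X.bar (x : X.R)
        have h1 : ((r • x : S.comap X.bar) : X.R) = (r : ℂ) • (x : X.R) := by
          rw [Complex.coe_smul]; rfl
        rw [h1, LinearMap.map_smulₛₗ, Complex.conj_ofReal, Complex.coe_smul]
      invFun := fun x => ⟨X.bar x, by
        show X.bar (X.bar (x : X.R)) ∈ S
        rw [X.bar_bar]; exact x.2⟩
      left_inv := fun x => Subtype.ext (X.bar_bar x)
      right_inv := fun x => Subtype.ext (X.bar_bar x) }
  have h1 := e.finrank_eq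
  rw [finrank_real_of_complex, finrank_real_of_complex] at h1
  omega

theorem mem_killed {k : ℕ} {p : ℤ} {x : X.R} :
    x ∈ killed X L k p ↔ x ∈ X.H (p, 0) ∧ L ^ k * x = 0 := Iff.rfl

theorem killed_le (k : ℕ) (p : ℤ) : killed X L k p ≤ X.H (p, 0) := inf_le_left

theorem killed_bar_le (k : ℕ) (p : ℤ) : (killed X L k p).comap X.bar ≤ X.H (0, p) := by
  intro z hz
  have h := X.bar_mem _ _ _ (mem_killed.1 (show X.bar z ∈ killed X L k p from hz)).1
  rwa [X.bar_bar] at h

theorem killed_bar (hb : X.bar L = L) {k : ℕ} {p : ℤ} {z : X.R} :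
    z ∈ (killed X L k p).comap X.bar ↔ z ∈ X.H (0, p) ∧ L ^ k * z = 0 := by
  constructor
  · intro h
    refine ⟨killed_bar_le k p h, ?_⟩
    have h1 := (mem_killed.1 (show X.bar z ∈ killed X L k p from h)).2
    have h2 := congrArg X.bar h1
    rwa [bar_pow hb, X.bar_bar, map_zero] at h2
  · rintro ⟨h1, h2⟩
    show X.bar z ∈ killed X L k p
    refine mem_killed.2 ⟨X.bar_mem _ _ _ h1, ?_⟩
    rw [← bar_pow hb, h2, map_zero]

/-- **Upper bound for the negative index.** -/
theorem neg_le (hL : Semipositive X L) {p : ℤ} {k : ℕ} (hk : p + k + 2 = n)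
    (M : Submodule ℂ X.R) (hM : M ≤ X.H (p + 1, 1))
    (hneg : ∀ x ∈ M, x ≠ 0 → sg (p + 1) 1 * bf X L k x x < 0) :
    finrank ℂ M + finrank ℂ (killed X L k p) ≤ X.h p 0 := by
  let Z := X.H (0, p)
  let Θ : M →ₗ[ℂ] Module.Dual ℂ Z :=
    LinearMap.mk₂ ℂ (fun (m : M) (z : Z) => X.tr (L ^ k * (X.ω * (m : X.R)) * (z : X.R)))
      (fun m m' z => by simp only [Submodule.coe_add, mul_add, add_mul, map_add])
      (fun c m z => by
        simp only [Submodule.coe_smul, mul_smul_comm, smul_mul_assoc, map_smul])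
      (fun m z z' => by simp only [Submodule.coe_add, mul_add, map_add])
      (fun c m z => by simp only [Submodule.coe_smul, mul_smul_comm, map_smul])
  have hΘ : ∀ m z, Θ m z = X.tr (L ^ k * (X.ω * (m : X.R)) * (z : X.R)) := fun m z => rfl
  have hinj : Function.Injective Θ := by
    rw [injective_iff_map_eq_zero]
    intro m hm
    have h1 : L ^ k * (X.ω * (m : X.R)) = 0 := by
      have hmem : L ^ k * (X.ω * (m : X.R)) ∈ X.H (p + 1 + 1 + k, 1 + 1 + k) :=
        X.pow_mul_mem hL.mem k (omega_mem (hM m.2))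
      refine X.pd _ _ _ hmem fun y hy => ?_
      have e : (((n : ℤ) - (p + 1 + 1 + k), (n : ℤ) - (1 + 1 + k)) : ℤ × ℤ) = (0, p) := by
        ext <;> simp <;> omega
      rw [e] at hy
      have := congrArg (fun f => f ⟨y, hy⟩) hm
      exact this
    by_contra hne
    have h2 := semi_pos hL hk (hM m.2) h1
    have h3 := hneg m m.2 (fun h0 => hne (Subtype.ext h0))
    linarith
  let K : Submodule ℂ Z := ((killed X L k p).comap X.bar).comap Z.subtype
  have hK : finrank ℂ K = finrank ℂ (killed X L k p) := by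
    rw [show finrank ℂ K = finrank ℂ ((killed X L k p).comap X.bar) from
      finrank_comap_le (killed_bar_le k p), finrank_comap_bar]
  have hle : LinearMap.range Θ ≤ K.dualAnnihilator := by
    rintro _ ⟨m, rfl⟩
    rw [Submodule.mem_dualAnnihilator]
    intro z hz
    rw [hΘ]
    have h1 : L ^ k * (z : X.R) = 0 :=
      ((killed_bar hL.real).1 (show (z : X.R) ∈ (killed X L k p).comap X.bar from hz)).2
    have h2 : L ^ k * (X.ω * (m : X.R)) * (z : X.R) = 0 := by
      rw [pow_central hL.mem, mul_assoc, h1, mul_zero]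
    rw [h2, map_zero]
  have h1 := Submodule.finrank_mono hle
  rw [LinearMap.finrank_range_of_inj hinj] at h1
  have h2 := Subspace.finrank_add_finrank_dualAnnihilator_eq K
  have h3 : finrank ℂ Z = X.h p 0 := (X.h_swap p 0).symm
  omega

/-- The vectors in the upper part which are orthogonal to the holomorphic forms. -/
theorem exists_ker' (hL : Semipositive X L) {p : ℤ} {k : ℕ} (hk : p + k + 2 = n) (N : ℕ)
    (hN : 1 ≤ N) :
    ∃ K : Submodule ℂ X.R,
      finrank ℂ K + X.h p 0 = hs X (p + 1) 1 (sp N) + finrank ℂ (killed X L k p) ∧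
      ∀ x ∈ X.F (p + 1) 1 (sp N), (∀ y ∈ X.H (p, 0), hf X L k x y = 0) → x ∈ K := by
  let V := X.F (p + 1) 1 (sp N)
  let Z := X.H (0, p)
  let Θ : Z →ₗ[ℂ] Module.Dual ℂ V :=
    LinearMap.mk₂ ℂ (fun (z : Z) (x : V) => X.tr (X.dual (x : X.R) * (L ^ k * (z : X.R))))
      (fun z z' x => by
        simp only [Submodule.coe_add, mul_add, map_add])
      (fun c z x => by
        simp only [Submodule.coe_smul, mul_smul_comm, map_smul])
      (fun z x x' => by
        simp only [Submodule.coe_add, add_mul, map_add])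
      (fun c z x => by
        simp only [Submodule.coe_smul, smul_mul_assoc, map_smul])
  have hΘ : ∀ z x, Θ z x = X.tr (X.dual (x : X.R) * (L ^ k * (z : X.R))) := fun z x => rfl
  have hker : LinearMap.ker Θ = ((killed X L k p).comap X.bar).comap Z.subtype := by
    ext z
    rw [LinearMap.mem_ker]
    constructor
    · intro hz
      show (z : X.R) ∈ (killed X L k p).comap X.bar
      rw [killed_bar hL.real]
      refine ⟨z.2, ?_⟩
      have hmem := X.pow_mul_mem hL.mem k z.2
      refine X.pd _ _ _ hmem fun y hy => ?_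
      have e : (((n : ℤ) - (0 + k), (n : ℤ) - (p + k)) : ℤ × ℤ) = (p + 1 + 1, 1 + 1) := by
        ext <;> simp <;> omega
      rw [e] at hy
      have hyV : y ∈ V := X.mem_F (show (1 : ℤ) ∈ sp N by rw [mem_sp]; omega) hy
      have h3 : X.tr (X.dual y * (L ^ k * (z : X.R))) = 0 := by
        have := congrArg (fun f => f ⟨y, hyV⟩) hz
        exact this
      rw [X.dual_of hy, smul_mul_assoc, map_smul, smul_eq_mul] at h3
      have h4 := (mul_eq_zero.mp h3).resolve_left (zpow_ne_zero _ Complex.I_ne_zero)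
      rw [X.comm _ _ _ _ _ _ hmem hy, map_smul, h4, smul_zero]
    · intro hz
      have h1 := ((killed_bar hL.real).1 (show (z : X.R) ∈ (killed X L k p).comap X.bar from hz)).2
      ext x
      rw [hΘ, h1, mul_zero, map_zero]
      rfl
  have h0 := LinearMap.finrank_range_add_finrank_ker Θ
  rw [hker, show finrank ℂ (((killed X L k p).comap X.bar).comap Z.subtype : Submodule ℂ Z) =
    finrank ℂ ((killed X L k p).comap X.bar) from finrank_comap_le (killed_bar_le k p),
    finrank_comap_bar] at h0
  have h1 := Subspace.finrank_add_finrank_dualCoannihilator_eq (LinearMap.range Θ)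
  refine ⟨(LinearMap.range Θ).dualCoannihilator.map V.subtype, ?_, ?_⟩
  · rw [Submodule.finrank_map_subtype_eq]
    have h2 : finrank ℂ Z = X.h p 0 := (X.h_swap p 0).symm
    have h3 : finrank ℂ V = hs X (p + 1) 1 (sp N) := X.finrank_F (p + 1) 1 (sp N)
    rw [h3] at h1
    rw [h2] at h0
    omega
  · intro x hx h
    refine ⟨⟨x, hx⟩, ?_, rfl⟩
    rw [SetLike.mem_coe, Submodule.mem_dualCoannihilator]
    rintro _ ⟨z, rfl⟩
    rw [hΘ]
    have h2 := h (X.bar z) (X.bar_mem _ _ _ z.2)
    unfold hf at h2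
    rw [X.bar_bar] at h2
    exact h2

end Pool.Agent.P8H56.DH
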