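import Pool.Agent.P8H56.DH.Mix

/-!
# The index of the form of a semipositive class next to the holomorphic forms
-/

open scoped ComplexConjugate Topology
open Module

namespace Pool.Agent.P8H56.DH

open Pool.Agent.W539.DI Pool.Agent.R929.DH

variable {n : ℕ} {X : KRing n} {L : X.R}

theorem kill_right (hL : L ∈ X.H (1, 1)) (hb : X.bar L = L) {i : ℕ} {y : X.R} (h : L ^ i * y = 0)
    (v x : X.R) : gf X (L ^ i * v) x (X.ω * y) = 0 := by
  have h1 : L ^ i * X.bar y = 0 := by rw [← bar_pow hb, h, map_zero]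
  have h2 : L ^ i * v * X.bar (X.ω * y) = 0 := by
    rw [X.bar_mul, X.ω_bar, pow_central hL, mul_assoc, ← mul_assoc (L ^ i), pow_central hL,
      mul_assoc X.ω, h1, mul_zero, mul_zero]
  unfold gf
  rw [h2, mul_zero, map_zero]

theorem kill_left (hL : L ∈ X.H (1, 1)) {i : ℕ} {p q : ℤ} {y : X.R} (hy : y ∈ X.H (p, q))
    (h : L ^ i * y = 0) (v x : X.R) : gf X (L ^ i * v) (X.ω * y) x = 0 := by
  have h1 : X.dual (X.ω * y) * (L ^ i * v * X.bar x) = 0 := by
    rw [dual_mul X.ω_mem, X.dual_of hy, mul_smul_comm, neg_mul, smul_mul_assoc, mul_assoc (L ^ i),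
      ← mul_assoc (X.ω * y), ← pow_central hL, ← mul_assoc (L ^ i), pow_central hL i X.ω,
      mul_assoc X.ω, h, mul_zero, zero_mul, smul_zero, neg_zero]
  unfold gf
  rw [h1, map_zero]

theorem A_neg (X : KRing n) : ∀ (r : ℕ) (p q : ℤ), q < 0 → X.A r p q = 0 := by
  intro r
  induction r with
  | zero => intro p q _; rfl
  | succ r ih =>
    intro p q hq
    have e : X.A (r + 1) p q = X.h p q - X.A r (p - 1) (q - 1) := rfl
    rw [e, ih _ _ (by omega), X.h_neg (Or.inr hq)]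
    simp

theorem A_one (X : KRing n) (r : ℕ) (p : ℤ) :
    X.A (r + 2) (p + 1) 1 = (X.h (p + 1) 1 : ℤ) - X.h p 0 := by
  have e1 : X.A (r + 2) (p + 1) 1 = X.h (p + 1) 1 - X.A (r + 1) (p + 1 - 1) (1 - 1) := rfl
  have e2 : X.A (r + 1) (p + 1 - 1) (1 - 1) =
      X.h (p + 1 - 1) (1 - 1) - X.A r (p + 1 - 1 - 1) (1 - 1 - 1) := rfl
  rw [e1, e2, A_neg X r _ _ (by norm_num), sub_zero, add_sub_cancel_right, sub_self]

theorem omega_mem {p q : ℤ} {y : X.R} (hy : y ∈ X.H (p, q)) : X.ω * y ∈ X.H (p + 1, q + 1) := by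
  have := X.mul_mem X.ω_mem hy
  rwa [add_comm 1 p, add_comm 1 q] at this

/-- The mixed forms on `ω y`. -/
theorem mixed (hL : Semipositive X L) {p : ℤ} {k : ℕ} (hk : p + k + 2 = n) {i : ℕ} (hi : i ≤ k)
    {y : X.R} (hy : y ∈ X.H (p, 0)) :
    (L ^ i * y = 0 ∧ sg (p + 1) 1 * bg X (L ^ i * X.ω ^ (k - i)) (X.ω * y) (X.ω * y) = 0) ∨
    (L ^ i * y ≠ 0 ∧ sg (p + 1) 1 * bg X (L ^ i * X.ω ^ (k - i)) (X.ω * y) (X.ω * y) < 0) := by
  by_cases h : L ^ i * y = 0
  · left
    refine ⟨h, ?_⟩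
    unfold bg
    rw [kill_left hL.mem hy h]
    simp
  · right
    refine ⟨h, ?_⟩
    obtain ⟨r, hr, he⟩ := hL.pos p i (k - i + 2) (by push_cast [Nat.cast_sub hi]; omega) y hy h
    have h1 := gf_omega hy L hL.mem i (k - i)
    rw [he] at h1
    have h2 := congrArg Complex.re h1
    rw [Complex.re_ofReal_mul, Complex.neg_re, Complex.ofReal_re] at h2
    unfold bg
    linarith

/-- The mixed forms are bounded on the cosets of `ω H^{p,0}`. -/
theorem bounded (hL : Semipositive X L) {p : ℤ} {k : ℕ} (hk : p + k + 2 = n) {i : ℕ} (hi : i ≤ k)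
    (x : X.R) : ∃ D : ℝ, ∀ y ∈ X.H (p, 0),
      sg (p + 1) 1 * bg X (L ^ i * X.ω ^ (k - i)) (x + X.ω * y) (x + X.ω * y) ≤ D := by
  have hH := isHerm_g (X := X) (u := L ^ i * X.ω ^ (k - i)) (sg (p + 1) 1)
  set β : X.R → X.R → ℝ := fun x y => sg (p + 1) 1 * bg X (L ^ i * X.ω ^ (k - i)) x y with hβ
  let f : X.H (p, 0) →ₗ[ℝ] X.R :=
    ((LinearMap.mulLeft ℂ X.ω) ∘ₗ (X.H (p, 0)).subtype).restrictScalars ℝ
  have hf : ∀ y : X.H (p, 0), f y = X.ω * (y : X.R) := fun y => rfl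
  let T : X.H (p, 0) →ₗ[ℝ] X.H (p, 0) →ₗ[ℝ] ℝ := -(hH.toBilin.compl₁₂ f f)
  have hT : ∀ z y, T z y = -β (X.ω * (z : X.R)) (X.ω * (y : X.R)) := fun z y => rfl
  have hTp : ∀ y, 0 ≤ T y y := by
    intro y
    rw [hT]
    rcases mixed hL hk hi y.2 with ⟨-, h⟩ | ⟨-, h⟩
    · have : β (X.ω * (y : X.R)) (X.ω * (y : X.R)) = 0 := h
      rw [this, neg_zero]
    · have : β (X.ω * (y : X.R)) (X.ω * (y : X.R)) < 0 := h
      linarith
  let l : X.H (p, 0) →ₗ[ℝ] ℝ := (hH.toBilin x) ∘ₗ f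
  have hl : ∀ y, l y = β x (X.ω * (y : X.R)) := fun y => rfl
  have : FiniteDimensional ℝ (X.H (p, 0)) := FiniteDimensional.complexToReal _
  obtain ⟨z, hz⟩ := riesz T (fun x y => by rw [hT, hT, hH.symm]) l (by
    intro y hy
    have h1 := hy y
    rw [hT] at h1
    rcases mixed hL hk hi y.2 with ⟨h, -⟩ | ⟨-, h⟩
    · rw [hl]
      show sg (p + 1) 1 * bg X (L ^ i * X.ω ^ (k - i)) x (X.ω * (y : X.R)) = 0
      unfold bg
      rw [kill_left hL.mem y.2 h, kill_right hL.mem hL.real h]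
      simp
    · have : β (X.ω * (y : X.R)) (X.ω * (y : X.R)) < 0 := h
      linarith)
  refine ⟨β x x + T z z, fun y hy => ?_⟩
  have h1 := hz ⟨y, hy⟩
  rw [hl] at h1
  have h2 := hTp (z - ⟨y, hy⟩)
  have h3 : T (z - ⟨y, hy⟩) (z - ⟨y, hy⟩) = T z z - 2 * T z ⟨y, hy⟩ + T ⟨y, hy⟩ ⟨y, hy⟩ := by
    have h4 : T ⟨y, hy⟩ z = T z ⟨y, hy⟩ := by rw [hT, hT, hH.symm]
    rw [map_sub, map_sub, LinearMap.sub_apply, LinearMap.sub_apply, h4]
    ring
  have h5 : T ⟨y, hy⟩ ⟨y, hy⟩ = -β (X.ω * y) (X.ω * y) := hT _ _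
  have h6 : β (x + X.ω * y) (x + X.ω * y) =
      β x x + 2 * β x (X.ω * y) + β (X.ω * y) (X.ω * y) := by
    rw [hH.add, hH.add_right, hH.add_right, hH.symm (X.ω * y) x]
    ring
  show β (x + X.ω * y) (x + X.ω * y) ≤ β x x + T z z
  have h7 : β x (X.ω * y) = T z ⟨y, hy⟩ := h1
  rw [h6, h7]
  linarith

/-- The form of `L ^ k` is nonnegative on the classes of type `(p + 1, 1)` which are killed by
`L ^ k ω`. -/
theorem semi_pos (hL : Semipositive X L) {p : ℤ} {k : ℕ} (hk : p + k + 2 = n)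
    {x : X.R} (hx : x ∈ X.H (p + 1, 1)) (h0 : L ^ k * (X.ω * x) = 0) :
    0 ≤ sg (p + 1) 1 * bf X L k x x := by
  choose! D hD using fun (i : ℕ) (hi : i ≤ k) => bounded hL hk hi x
  -- the term with `L ^ k`
  have hlast : ∀ y ∈ X.H (p, 0),
      sg (p + 1) 1 * bg X (L ^ k * X.ω ^ (k - k)) (x + X.ω * y) (x + X.ω * y) ≤
        sg (p + 1) 1 * bf X L k x x := by
    intro y hy
    have hH := isHerm_g (X := X) (u := L ^ k * X.ω ^ (k - k)) (sg (p + 1) 1)
    have h1 : sg (p + 1) 1 * bg X (L ^ k * X.ω ^ (k - k)) x (X.ω * y) = 0 := by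
      have hd : L ^ k * (X.ω * X.dual x) = 0 := by
        rw [X.dual_of hx, mul_smul_comm, mul_smul_comm, h0, smul_zero]
      have hb : L ^ k * (X.ω * X.bar x) = 0 := by
        have := congrArg X.bar h0
        rwa [bar_pow hL.real, X.bar_mul, X.ω_bar, map_zero] at this
      have a1 : gf X (L ^ k * X.ω ^ (k - k)) x (X.ω * y) = 0 := by
        unfold gf
        rw [Nat.sub_self, pow_zero, mul_one, X.bar_mul, X.ω_bar, ← mul_assoc (X.dual x),
          ← pow_central hL.mem, ← mul_assoc, mul_assoc (L ^ k), ← X.central X.ω_mem, hd, zero_mul,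
          map_zero]
      have a2 : gf X (L ^ k * X.ω ^ (k - k)) (X.ω * y) x = 0 := by
        unfold gf
        rw [Nat.sub_self, pow_zero, mul_one, dual_mul X.ω_mem, X.central X.ω_mem, neg_mul,
          mul_assoc, ← mul_assoc X.ω, ← pow_central hL.mem, mul_assoc, hb, mul_zero, neg_zero,
          map_zero]
      unfold bg
      rw [a1, a2]
      simp
    have h2 : sg (p + 1) 1 * bg X (L ^ k * X.ω ^ (k - k)) (X.ω * y) (X.ω * y) ≤ 0 := by
      rcases mixed hL hk le_rfl hy with ⟨-, h⟩ | ⟨-, h⟩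
      · exact h.le
      · exact h.le
    have h3 : sg (p + 1) 1 * bg X (L ^ k * X.ω ^ (k - k)) x x = sg (p + 1) 1 * bf X L k x x := by
      rw [Nat.sub_self, pow_zero, mul_one, bf_eq]
    set β : X.R → X.R → ℝ := fun x y => sg (p + 1) 1 * bg X (L ^ k * X.ω ^ (k - k)) x y with hβ
    have h6 : β (x + X.ω * y) (x + X.ω * y) =
        β x x + 2 * β x (X.ω * y) + β (X.ω * y) (X.ω * y) := by
      rw [hH.add, hH.add_right, hH.add_right, hH.symm (X.ω * y) x]
      ring
    have h1' : β x (X.ω * y) = 0 := h1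
    have h2' : β (X.ω * y) (X.ω * y) ≤ 0 := h2
    have h3' : β x x = sg (p + 1) 1 * bf X L k x x := h3
    show β (x + X.ω * y) (x + X.ω * y) ≤ _
    rw [h6, h1', ← h3']
    linarith
  -- the inequality for positive `t`
  have key : ∀ t : ℝ, 0 < t → 0 ≤ sg (p + 1) 1 * bf X L k x x +
      ∑ i ∈ Finset.range k, (k.choose i * t ^ (k - i)) * D i := by
    intro t ht
    have hK := hL.nef t ht
    have hH := isHerm (X := X) (w := L + (t : ℂ) • X.ω) (k := k) (sg (p + 1) 1)
    have hexp : ∀ v : X.R, sg (p + 1) 1 * bf X (L + (t : ℂ) • X.ω) k v v =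
        ∑ i ∈ Finset.range (k + 1), (k.choose i * t ^ (k - i)) *
          (sg (p + 1) 1 * bg X (L ^ i * X.ω ^ (k - i)) v v) := by
      intro v
      rw [bf_expand hL.mem, Finset.mul_sum]
      exact Finset.sum_congr rfl fun i _ => by ring
    have hco : ∀ i, (0 : ℝ) ≤ k.choose i * t ^ (k - i) := fun i => by positivity
    have hneg : ∀ y ∈ X.H (p, 0), y ≠ 0 →
        sg (p + 1) 1 * bf X (L + (t : ℂ) • X.ω) k (X.ω * y) (X.ω * y) < 0 := by
      intro y hy hy0
      rw [hexp]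
      have hle : ∀ i ∈ Finset.range (k + 1), (k.choose i * t ^ (k - i)) *
          (sg (p + 1) 1 * bg X (L ^ i * X.ω ^ (k - i)) (X.ω * y) (X.ω * y)) ≤ 0 := by
        intro i hi
        refine mul_nonpos_of_nonneg_of_nonpos (hco i) ?_
        rw [Finset.mem_range] at hi
        rcases mixed hL hk (show i ≤ k by omega) hy with ⟨-, h⟩ | ⟨-, h⟩
        · exact h.le
        · exact h.le
      rw [Finset.sum_range_succ']
      refine add_neg_of_nonpos_of_neg (Finset.sum_nonpos fun i hi => hle (i + 1) ?_) ?_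
      · rw [Finset.mem_range] at hi ⊢
        omega
      · rcases mixed hL hk (Nat.zero_le k) hy with ⟨h, -⟩ | ⟨-, h⟩
        · rw [pow_zero, one_mul] at h
          exact absurd h hy0
        · refine mul_neg_of_pos_of_neg ?_ h
          have : 0 < t ^ (k - 0) := by positivity
          simpa using this
    obtain ⟨P, hP, hPpos, hPd⟩ := kahler_pos hK (r := p.toNat + 2) (p := p + 1) (q := 1) (k := k)
      (by omega) (by push_cast; have := Int.self_le_toNat p; omega)
    rw [A_one] at hPd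
    let N : Submodule ℂ X.R := (X.H (p, 0)).map (ml X X.ω)
    have hNd : finrank ℂ N = X.h p 0 := by
      refine finrank_map_of_inj _ _ fun y hy h => ?_
      by_contra hy0
      have h1 := hneg y hy hy0
      have h2 : X.ω * y = 0 := h
      rw [h2, hH.zero_left] at h1
      exact lt_irrefl _ h1
    obtain ⟨z, hz, hz2⟩ := exists_nonneg hH (X.H (p + 1, 1)) N P
      (by
        rintro _ ⟨y, hy, rfl⟩
        simpa using omega_mem hy)
      hP
      (by
        rintro _ ⟨y, hy, rfl⟩ hy0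
        refine hneg y hy ?_
        rintro rfl
        exact hy0 (by simp))
      hPpos
      (by
        rw [hNd]
        have : finrank ℂ (X.H (p + 1, 1)) = X.h (p + 1) 1 := rfl
        omega) hx
    obtain ⟨y, hy, rfl⟩ := hz
    have hz3 : 0 ≤ sg (p + 1) 1 * bf X (L + (t : ℂ) • X.ω) k (x + X.ω * y) (x + X.ω * y) := hz2
    rw [hexp, Finset.sum_range_succ] at hz3
    have h1 : (k.choose k * t ^ (k - k)) *
        (sg (p + 1) 1 * bg X (L ^ k * X.ω ^ (k - k)) (x + X.ω * y) (x + X.ω * y)) ≤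
        sg (p + 1) 1 * bf X L k x x := by
      rw [Nat.choose_self, Nat.cast_one, one_mul]
      have := hlast y hy
      rw [Nat.sub_self, pow_zero, pow_zero, one_mul] at *
      exact this
    have h2 : ∑ i ∈ Finset.range k, (k.choose i * t ^ (k - i)) *
        (sg (p + 1) 1 * bg X (L ^ i * X.ω ^ (k - i)) (x + X.ω * y) (x + X.ω * y)) ≤
        ∑ i ∈ Finset.range k, (k.choose i * t ^ (k - i)) * D i := by
      refine Finset.sum_le_sum fun i hi => ?_
      rw [Finset.mem_range] at hi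
      exact mul_le_mul_of_nonneg_left (hD i hi.le y hy) (hco i)
    linarith
  -- the limit
  have hcont : Continuous (fun t : ℝ => sg (p + 1) 1 * bf X L k x x +
      ∑ i ∈ Finset.range k, (k.choose i * t ^ (k - i)) * D i) := by fun_prop
  have hlim := hcont.tendsto 0
  have hval : sg (p + 1) 1 * bf X L k x x +
      ∑ i ∈ Finset.range k, ((k.choose i : ℝ) * (0 : ℝ) ^ (k - i)) * D i =
        sg (p + 1) 1 * bf X L k x x := by
    rw [Finset.sum_eq_zero, add_zero]
    intro i hi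
    rw [Finset.mem_range] at hi
    rw [zero_pow (by omega), mul_zero, zero_mul]
  rw [hval] at hlim
  refine ge_of_tendsto (hlim.mono_left (nhdsWithin_le_nhds (s := Set.Ioi 0))) ?_
  filter_upwards [self_mem_nhdsWithin] with t ht
  exact key t ht

end Pool.Agent.P8H56.DH
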